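import Pool.Agent.MP_88e1ca_an.Log.Fin

set_option autoImplicit false

open Pool.Agent.MP_88e1ca_an.Min Pool.Agent.MP_88e1ca_an.Log

/-- For every `ε > 0` some full shift has a one-sided automorphism of infinite order whose `n`-th
iterate has one-sided radius `O((log n) ^ (1 + ε))`. -/
theorem Pool.Agent.Results.MP_88e1ca_an.FullShift.result (ε : ℝ) (hε : 0 < ε) :
    ∃ (k : ℕ) (f g : (ℤ → Fin k) → (ℤ → Fin k)),
      Function.LeftInverse g f ∧ Function.RightInverse g f ∧ Continuous f ∧ Continuous g ∧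
      (∀ x, f (shift x) = shift (f x)) ∧ HasRadius Set.univ f 7 ∧ HasRadius Set.univ g 7 ∧
      (∀ n : ℕ, 1 ≤ n → f^[n] ≠ id) ∧
      ∃ C : ℝ, ∀ n : ℕ, 2 ≤ n → ∃ r : ℕ, (r : ℝ) ≤ C * Real.log n ^ (1 + ε) ∧
        HasRadius Set.univ f^[n] r := by
  obtain ⟨d, hd⟩ := exists_nat_ge ((4 : ℝ) ^ (1 / ε))
  obtain ⟨H, P, hH, hP⟩ := table (d + 1)
  have : NeZero H := ⟨hH⟩
  let L := base H (8 * (d + 1 + 1))
  let e := Finite.equivFin (ZMod 4 × G H (8 * (d + 1 + 1)))
  have it : ∀ n x, (fun x => e ∘ F L P (e.symm ∘ x))^[n] x = e ∘ (F L P)^[n] (e.symm ∘ x) := by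
    intro n x
    induction n with
    | zero => simp [← Function.comp_assoc]
    | succ n ih => simp [Function.iterate_succ_apply', ih, ← Function.comp_assoc]
  have r1 : HasRadius Set.univ (fun x => e ∘ F L P (e.symm ∘ x)) 7 := fun x _ y _ i h =>
    congrArg e (F_loc L P i fun j h1 h2 => congrArg e.symm (h j h1 h2))
  have r2 : HasRadius Set.univ (fun x => e ∘ Fi L P (e.symm ∘ x)) 7 := fun x _ y _ i h =>
    congrArg e (Fi_loc L P i fun j h1 h2 => congrArg e.symm (h j h1 h2))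
  refine ⟨_, fun x => e ∘ F L P (e.symm ∘ x), fun x => e ∘ Fi L P (e.symm ∘ x), fun x => ?_,
    fun x => ?_, continuousOn_univ.1 r1.cont, continuousOn_univ.1 r2.cont,
    fun x => funext fun i => ?_, r1, r2, fun n hn h => order hP n hn _ L fun S => funext fun i =>
      e.injective ?_, 100 * ((d + 2) * (H + 1)) * ((4 * (d + 2 : ℕ)) ^ 2 * 4 ^ (1 + ε)),
    fun n hn => ⟨100 * ((d + 2) * (H + 1)) * (4 * (d + 2)) ^ (Nat.clog (d + 2) (Nat.clog 2 n) + 1),
      ?_, fun x _ y _ i h => ?_⟩⟩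
  · simp [← Function.comp_assoc, Fi_F L P (one_ne _)]
  · simp [← Function.comp_assoc, F_Fi L P (one_ne _)]
  · simp only [F, TK, TC, U, pD, pR, shift, Function.comp, add_right_comm _ (1 : ℤ)]
  · have := congrFun (congrFun h (e ∘ fun J : ℤ => ((J : ZMod 4), S J))) i
    simpa [it, ← Function.comp_assoc] using this
  · have := growth (d := d + 2) hε (hd.trans (by push_cast; linarith)) (by omega) n hn
    push_cast at this ⊢
    exact (mul_le_mul_of_nonneg_left this (by positivity)).trans_eq (mul_assoc _ _ _).symm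
  · rw [it, it]
    refine congrArg e (radius hP L (Nat.clog (d + 2) (Nat.clog 2 n)) n ((Nat.le_pow_clog one_lt_two n).trans
      (Nat.pow_le_pow_right two_pos (Nat.le_pow_clog (by omega) _))) _ _ i fun j h1 h2 =>
      congrArg e.symm (h j h1 ?_))
    push_cast at h2 ⊢
    rwa [add_assoc (d : ℤ), one_add_one_eq_two] at h2
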