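import Pool.Agent.MP_88e1ca_an.Min.B

set_option autoImplicit false

open Pool.Agent.MP_88e1ca_an.Min

/-- A minimal subshift with a Toeplitz point and a one-sided automorphism of infinite order whose
`n`-th iterate has one-sided radius at most `44 * n ^ (7 / 8)`. -/
theorem Pool.Agent.Results.MP_88e1ca_an.MinimalShift.result :
    ∃ (k : ℕ) (X : Set (ℤ → Fin k)) (f g : (ℤ → Fin k) → (ℤ → Fin k)),
      X.Nonempty ∧ IsClosed X ∧ shift '' X = X ∧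
      (∀ Z ⊆ X, Z.Nonempty → IsClosed Z → Set.MapsTo shift Z Z → Z = X) ∧
      (∃ x ∈ X, ∀ i : ℤ, ∃ N : ℤ, 0 < N ∧ ∀ m : ℤ, x (i + m * N) = x i) ∧
      Set.MapsTo f X X ∧ Set.MapsTo g X X ∧ Set.InvOn g f X X ∧
      ContinuousOn f X ∧ ContinuousOn g X ∧ (∀ x ∈ X, f (shift x) = shift (f x)) ∧
      (∃ r : ℕ, HasRadius X f r) ∧ (∃ r : ℕ, HasRadius X g r) ∧
      (∀ n : ℕ, 1 ≤ n → ∃ x ∈ X, f^[n] x ≠ x) ∧
      ∀ n : ℕ, 1 ≤ n → ∃ r : ℕ, (r : ℝ) ≤ 44 * (n : ℝ) ^ (7 / 8 : ℝ) ∧ HasRadius X f^[n] r := by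
  obtain ⟨y, ha, hb, hc, hd⟩ := good
  let e := Fintype.equivFin Cell
  obtain ⟨X, f, g, h1, h2, h3, h4, h5, h6, h7, h8, h9, h10, h11, h12, h13, h14, h15⟩ :=
    build (fun p => e (y p)) (fun s => 11 * 4 ^ Nat.clog 5 s.natAbs)
      (fun s a t b u h => congrArg e (ha s a t b u fun i h1 h2 => e.injective (h i h1 h2)))
      (fun L s => (hb L s).imp fun _ h i h1 h2 => congrArg e (h i h1 h2))
      (fun L => (hc L).imp fun _ h => ⟨h.1, fun m i h1 h2 => congrArg e (h.2 m i h1 h2)⟩)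
      fun n h => hd n fun a t => e.injective (h a t)
  exact ⟨_, X, f, g, h1, h2, h3, h4, h5, h6, h7, h8, h9, h10, h11, h12, h13, h14,
    fun n hn => ⟨_, bound n hn, h15 n⟩⟩
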